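import Pool.Agent.KW.Main

set_option autoImplicit false

/-!
# The order of the Kolmogorov widths of the classes of mixed smoothness in the uniform norm

For every `d ≥ 2`, `2 ≤ q ≤ ∞`, `r > 1/q` and real `α` we determine the order of
`d_m(W^r_{q,α}, L_∞)`: with constants depending on `d, q, r, α` only,

* `r > 1/2`: `m^{-r} (log m)^{(d-1) r + 1/2}`;
* `r = 1/2`: `m^{-1/2} (log m)^{d/2} (log (3 + log m))^{1/2}`;
* `r < 1/2`: `m^{-r} (log m)^{(d-1) (1-r) + r}`.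

The variable `x` of the problem is `2π` times ours, so that the torus is `(ℝ/ℤ)^d` with the
normalised Haar measure.  Both real functions (with subspaces over `ℝ`) and complex functions
(with subspaces over `ℂ`) are treated.
-/

open MeasureTheory Filter
open scoped BigOperators ENNReal

namespace Pool.Agent.Results.MP_4140a0_an.WidthOrder

noncomputable section

/-! ## The objects of the problem -/

/-- The `d`-dimensional torus. -/
abbrev Torus (d : ℕ) := Fin d → UnitAddCircle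

/-- The normalised Haar (Lebesgue) measure on the torus. -/
def haar (d : ℕ) : Measure (Torus d) := Measure.pi fun _ => AddCircle.haarAddCircle

/-- The `K`-th partial sum of `F_r(2πt, α) = 1 + 2 ∑_{k ≥ 1} k^{-r} cos (2πkt - απ/2)`; here `t` is
the representative of `x ∈ ℝ/ℤ` in `[0, 1)`. -/
def partialF (r α : ℝ) (x : UnitAddCircle) (K : ℕ) : ℝ :=
  1 + 2 * ∑ k ∈ Finset.Icc 1 K, (k : ℝ) ^ (-r) *
    Real.cos ((k : ℝ) * (2 * Real.pi * (AddCircle.equivIco 1 0 x : ℝ)) - α * Real.pi / 2)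

/-- The kernel `F_r(·, α)`, the limit of the partial sums (it exists for every `x ≠ 0`, see
`kernel_converges` below). -/
def F (r α : ℝ) (x : UnitAddCircle) : ℝ := limUnder atTop (partialF r α x)

/-- The class `W^r_{q,α}` of real functions: all `f = φ * F_r(·, α)` with `‖φ‖_q ≤ 1`, as elements
of `L_∞` (every such `f` is in `L_∞`, see `conv_bounded_real` below). -/
def WReal (d : ℕ) (q : ℝ≥0∞) (r α : ℝ) : Set (Lp ℝ ⊤ (haar d)) :=
  {f | ∃ φ : Torus d → ℝ, MemLp φ q (haar d) ∧ eLpNorm φ q (haar d) ≤ 1 ∧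
    ∀ᵐ x ∂(haar d), f x = ∫ y, φ y * ∏ i, F r α (x i - y i) ∂(haar d)}

/-- The class `W^r_{q,α}` of complex functions: all `f = φ * F_r(·, α)` with `‖φ‖_q ≤ 1`, as
elements of `L_∞` (every such `f` is in `L_∞`, see `conv_bounded_complex` below). -/
def WComplex (d : ℕ) (q : ℝ≥0∞) (r α : ℝ) : Set (Lp ℂ ⊤ (haar d)) :=
  {f | ∃ φ : Torus d → ℂ, MemLp φ q (haar d) ∧ eLpNorm φ q (haar d) ≤ 1 ∧
    ∀ᵐ x ∂(haar d), f x = ∫ y, φ y * ((∏ i, F r α (x i - y i) : ℝ) : ℂ) ∂(haar d)}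

/-- The Kolmogorov width `d_m(S, X)`: the infimum over all linear subspaces `U` of dimension at
most `m` of the supremum over `f ∈ S` of the distance of `f` to `U`. -/
def width (𝕜 : Type) [RCLike 𝕜] {X : Type} [NormedAddCommGroup X] [NormedSpace 𝕜 X] (S : Set X)
    (m : ℕ) : ℝ≥0∞ :=
  ⨅ U : {U : Submodule 𝕜 X // FiniteDimensional 𝕜 U ∧ Module.finrank 𝕜 U ≤ m},
    ⨆ f ∈ S, Metric.infEDist f (U.1 : Set X)

/-- `d_m(W^r_{q,α}, L_∞)` for real functions and subspaces over `ℝ`. -/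
def dmReal (d : ℕ) (q : ℝ≥0∞) (r α : ℝ) (m : ℕ) : ℝ≥0∞ := width ℝ (WReal d q r α) m

/-- `d_m(W^r_{q,α}, L_∞)` for complex functions and subspaces over `ℂ`. -/
def dmComplex (d : ℕ) (q : ℝ≥0∞) (r α : ℝ) (m : ℕ) : ℝ≥0∞ := width ℂ (WComplex d q r α) m

/-- The order `ψ(m)` of the widths. -/
def order (d : ℕ) (r : ℝ) (m : ℕ) : ℝ :=
  if 1 / 2 < r then (m : ℝ) ^ (-r) * (Real.log m) ^ (((d : ℝ) - 1) * r + 1 / 2)
  else if r = 1 / 2 then
    (m : ℝ) ^ (-r) * (Real.log m) ^ ((d : ℝ) / 2) * Real.sqrt (Real.log (3 + Real.log m))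
  else (m : ℝ) ^ (-r) * (Real.log m) ^ (((d : ℝ) - 1) * (1 - r) + r)

/-! ## The objects are well defined -/

theorem F_eq (r α : ℝ) (x : UnitAddCircle) : F r α x = KW.Fr r α x := rfl

/-- The series of the kernel converges at every point other than zero. -/
theorem kernel_converges (r α : ℝ) (hr : 0 < r) (x : UnitAddCircle) (hx : x ≠ 0) :
    Tendsto (partialF r α x) atTop (nhds (F r α x)) := by
  obtain ⟨C, η, hC, hη, hη1, h⟩ := KW.fra_all r α hr
  set t : ℝ := (AddCircle.equivIco 1 0 x : ℝ) with ht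
  have h1 : 0 ≤ t ∧ t < 1 := by
    have := (AddCircle.equivIco (1 : ℝ) 0 x).2
    simpa using this
  have h2 : t ≠ 0 := by
    intro h0
    apply hx
    have h3 : ((t : ℝ) : UnitAddCircle) = x := (AddCircle.equivIco (1 : ℝ) 0).symm_apply_apply x
    rw [← h3, h0]
    rfl
  obtain ⟨-, L, hL⟩ := h t (lt_of_le_of_ne h1.1 (Ne.symm h2)) h1.2
  have h3 : Tendsto (partialF r α x) atTop (nhds L) := hL
  unfold F
  rw [h3.limUnder_eq]
  exact h3

/-- The convolutions are bounded functions: real case. -/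
theorem conv_bounded_real (d : ℕ) (q : ℝ≥0∞) (r α : ℝ) (hd : 1 ≤ d) (hq : 1 ≤ q)
    (hr : (1 / q).toReal < r) (φ : Torus d → ℝ) (hφ : MemLp φ q (haar d)) :
    MemLp (fun x => ∫ y, φ y * ∏ i, F r α (x i - y i) ∂(haar d)) ⊤ (haar d) :=
  KW.INCL_.memLp_real KW.deco_all KW.frk_all KW.uniq_all hd hq hr φ hφ

/-- The convolutions are bounded functions: complex case. -/
theorem conv_bounded_complex (d : ℕ) (q : ℝ≥0∞) (r α : ℝ) (hd : 1 ≤ d) (hq : 1 ≤ q)
    (hr : (1 / q).toReal < r) (φ : Torus d → ℂ) (hφ : MemLp φ q (haar d)) :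
    MemLp (fun x => ∫ y, φ y * ((∏ i, F r α (x i - y i) : ℝ) : ℂ) ∂(haar d)) ⊤ (haar d) :=
  KW.INCL_.memLp_cplx KW.deco_all KW.frk_all KW.uniq_all hd hq hr φ hφ

/-! ## The theorem -/

/-- The order of `d_m(W^r_{q,α}, L_∞)` for all `d ≥ 2`, `2 ≤ q ≤ ∞`, `r > 1/q` and `α`, for real
functions and for complex functions. -/
theorem result (d : ℕ) (q : ℝ≥0∞) (r α : ℝ) (hd : 2 ≤ d) (hq : 2 ≤ q)
    (hr : (1 / q).toReal < r) :
    (∃ c₁ c₂ : ℝ, 0 < c₁ ∧ 0 < c₂ ∧ ∀ m : ℕ, 2 ≤ m →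
      ENNReal.ofReal (c₁ * order d r m) ≤ dmReal d q r α m ∧
        dmReal d q r α m ≤ ENNReal.ofReal (c₂ * order d r m)) ∧
    ∃ c₁ c₂ : ℝ, 0 < c₁ ∧ 0 < c₂ ∧ ∀ m : ℕ, 2 ≤ m →
      ENNReal.ofReal (c₁ * order d r m) ≤ dmComplex d q r α m ∧
        dmComplex d q r α m ≤ ENNReal.ofReal (c₂ * order d r m) :=
  KW.final_all d q r α hd hq hr

end

end Pool.Agent.Results.MP_4140a0_an.WidthOrder
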